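import Mathlib

set_option autoImplicit false

namespace Pool.Agent.Results.MP_31821e_co.CompleteCase

/-- The retractions of `L`: order-preserving idempotent maps, ordered pointwise (the order that
the subtype inherits from `L → L`). -/
abbrev Retr (L : Type) [Preorder L] := {r : L → L // Monotone r ∧ r ∘ r = r}

/-- Squaring on the complete lattice of monotone self-maps. -/
def sq (L : Type) [CompleteLattice L] : (L →o L) →o (L →o L) :=
  ⟨fun g => g.comp g, fun _ _ h => OrderHom.comp_mono h h⟩

def iso (L : Type) [CompleteLattice L] : Function.fixedPoints (sq L) ≃o Retr L where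
  toFun g := ⟨g.1, g.1.monotone, congrArg DFunLike.coe (g.2 : g.1.comp g.1 = g.1)⟩
  invFun r := ⟨⟨r.1, r.2.1⟩, OrderHom.ext _ _ r.2.2⟩
  left_inv _ := rfl
  right_inv _ := rfl
  map_rel_iff' := Iff.rfl

theorem result (L : Type) [CompleteLattice L] (S : Set (Retr L)) :
    (∃ u, IsLUB S u) ∧ ∃ v, IsGLB S v := by
  let := fixedPoints.completeLattice (sq L)
  refine ⟨⟨iso L (sSup (iso L ⁻¹' S)), ?_⟩, ⟨iso L (sInf (iso L ⁻¹' S)), ?_⟩⟩
  · exact (iso L).isLUB_preimage.1 (isLUB_sSup _)
  · exact (iso L).isGLB_preimage.1 (isGLB_sInf _)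

end Pool.Agent.Results.MP_31821e_co.CompleteCase
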