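import Mathlib

set_option autoImplicit false

namespace Pool.Agent.Results.MP_31821e_co.NotLattice

/-- The retractions of `L`: order-preserving idempotent maps, ordered pointwise (the order that
the subtype inherits from `L → L`). -/
abbrev Retr (L : Type) [Preorder L] : Type := {r : L → L // Monotone r ∧ r ∘ r = r}

theorem result : ¬ ∀ (L : Type) [Lattice L] (r s : Retr L),
    (∃ u, IsLUB {r, s} u) ∧ ∃ v, IsGLB {r, s} v := by
  intro h
  let r : Retr ℤ := ⟨fun x => x + x % 2, fun x y (h : x ≤ y) => show x + x % 2 ≤ y + y % 2 by omega,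
    funext fun x => show x + x % 2 + (x + x % 2) % 2 = x + x % 2 by omega⟩
  let s : Retr ℤ := ⟨fun x => x + (x + 1) % 2,
    fun x y (h : x ≤ y) => show x + (x + 1) % 2 ≤ y + (y + 1) % 2 by omega,
    funext fun x => show x + (x + 1) % 2 + (x + (x + 1) % 2 + 1) % 2 = x + (x + 1) % 2 by omega⟩
  obtain ⟨u, hu⟩ := (h ℤ r s).1
  have h1 : u.1 0 + u.1 0 % 2 ≤ u.1 (u.1 0) := (hu.1 (show r ∈ {r, s} by simp) : r ≤ u) (u.1 0)
  have h2 : u.1 0 + (u.1 0 + 1) % 2 ≤ u.1 (u.1 0) :=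
    (hu.1 (show s ∈ {r, s} by simp) : s ≤ u) (u.1 0)
  have h3 : u.1 (u.1 0) = u.1 0 := congrFun u.2.2 0
  omega

end Pool.Agent.Results.MP_31821e_co.NotLattice
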